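import Pool.Agent.Helper24.ST.Test2
import Pool.Agent.Helper24.ST.Exam

set_option autoImplicit false

/-!
The singular times of a Leray-Hopf solution of the periodic Navier-Stokes equations.

`V = Fin 3 → ℝ`; `cube = [0,1]³`; `Per` means 1-periodic in each coordinate; `pd j` is the `j`-th
first derivative, `lap` the Laplacian; `energy v = ∫ |v|²` and `enstrophy v = ∫ |∇v|²` over the
cube; `SPV ψ` says that the field `ψ` is smooth and periodic.
-/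

open MeasureTheory Set Filter Topology
open scoped ContDiff ENNReal NNReal

namespace Pool.Agent.Results.MP_6bf1e5_an.SingularTimes

open H459R3.NS Pool.Agent.Helper24.ST

/-- A 1-periodic Leray-Hopf solution of the Navier-Stokes equations on the time interval `(0, T)`
with viscosity `ν`, written with its epochs of regularity: the components of the open set `G` of
full measure. No local energy inequality is required. -/
structure LerayHopf (ν T E : ℝ) (G : Set ℝ) (u : ℝ → V → V) (p : ℝ → V → ℝ) : Prop where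
  /-- the set of the regular times is open -/
  isOpen : IsOpen G
  /-- in `(0, T)` -/
  subset : G ⊆ Ioo 0 T
  /-- almost all times are regular -/
  full : volume (Ioo 0 T \ G) = 0
  /-- at the regular times the solution is smooth -/
  smooth_u : ContDiffOn ℝ ∞ (fun z : ℝ × V => u z.1 z.2) (G ×ˢ univ)
  smooth_p : ContDiffOn ℝ ∞ (fun z : ℝ × V => p z.1 z.2) (G ×ˢ univ)
  per_u : ∀ t ∈ G, Per (u t)
  per_p : ∀ t ∈ G, Per (p t)
  /-- `div u = 0` -/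
  divfree : ∀ t ∈ G, ∀ x, ∑ i, pd i (fun y => u t y i) x = 0
  /-- `∂ₜ u + (u · ∇) u = ν Δ u - ∇ p` -/
  momentum : ∀ t ∈ G, ∀ x i,
    deriv (fun s => u s x i) t + ∑ j, u t x j * pd j (fun y => u t y i) x
      = ν * ∑ j, pd j (pd j (fun y => u t y i)) x - pd i (p t) x
  /-- the energy is bounded by `E²` -/
  energy_le : ∀ t ∈ G, energy (u t) ≤ E ^ 2
  /-- the dissipation is integrable -/
  enst_int : IntegrableOn (fun t => enstrophy (u t)) G
  /-- the strong energy inequality -/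
  energy_ineq : ∀ s ∈ G, ∀ t ∈ G, s ≤ t →
    energy (u t) + 2 * ν * ∫ τ in G ∩ Ioo s t, enstrophy (u τ) ≤ energy (u s)
  /-- the weak form of the equations, across the singular times -/
  weak : ∀ ψ : V → V, SPV ψ → (∀ x, ∑ i, pd i (fun y => ψ y i) x = 0) →
    ∀ s ∈ G, ∀ t ∈ G, s ≤ t →
      (∑ i, ∫ x in cube, u t x i * ψ x i) - ∑ i, ∫ x in cube, u s x i * ψ x i
        = ∫ τ in G ∩ Ioo s t, ∑ i, ((∑ j, ∫ x in cube, u τ x i * u τ x j * pd j (fun y => ψ y i) x)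
          + ν * ∫ x in cube, u τ x i * lap (fun y => ψ y i) x)
  /-- the velocity becomes unbounded at the end `b < T` of each epoch of regularity -/
  blowup : ∀ a b, 0 ≤ a → a < b → b < T → Ioo a b ⊆ G → b ∉ G →
    ∀ C : ℝ, ∃ t ∈ Ioo a b, ∃ x i, C < |u t x i|

/-- The Hausdorff measure `H^g` of the gauge `g(r) = √r Γ(r)`. -/
noncomputable def HausG (Γ : ℝ → ℝ) : Measure ℝ :=
  Measure.mkMetric fun r : ℝ≥0∞ => ENNReal.ofReal (√ r.toReal * Γ r.toReal)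

/-- The singular times `t` at which the dissipation in `(t - r, t + r)` is at most
`M ν^(3/2) √r` for all `r < ρ`. -/
def Dense (ν T M ρ : ℝ) (G : Set ℝ) (u : ℝ → V → V) : Set ℝ :=
  {t ∈ Ioo 0 T \ G | ∀ r ∈ Ioo 0 ρ,
    ∫ τ in G ∩ Ioo (t - r) (t + r), enstrophy (u τ) ≤ M * (ν * √ ν) * √ r}

theorem LerayHopf.isLeray {ν T E : ℝ} {G : Set ℝ} {u : ℝ → V → V} {p : ℝ → V → ℝ}
    (h : LerayHopf ν T E G u p) : IsLeray ν T E G u p where
  openG := h.isOpen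
  subG := h.subset
  fullG := h.full
  smooth_u := h.smooth_u
  smooth_p := h.smooth_p
  per_u := h.per_u
  per_p := h.per_p
  divfree := h.divfree
  momentum := h.momentum
  energy_le := h.energy_le
  enst_int := h.enst_int
  energy_ineq := h.energy_ineq
  weak := h.weak
  blowup := h.blowup

theorem hausG_eq (Γ : ℝ → ℝ) : HausG Γ = Measure.mkMetric (gau Γ) := rfl

theorem result :
    (∃ C : ℝ, 0 < C ∧ ∀ (ν T E : ℝ) (G : Set ℝ) (u : ℝ → V → V) (p : ℝ → V → ℝ), 0 < ν →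
      LerayHopf ν T E G u p → ∀ K : ℕ, 1 ≤ K → ∃ F : Finset (ℝ × ℝ),
        (∀ q ∈ F, (1 / 4) ^ K / C ≤ ν * (q.2 - q.1) ∧ ν * (q.2 - q.1) ≤ C * (1 / 2) ^ K) ∧
        ({t ∈ Ioo 0 T \ G | C * (1 / 2) ^ K ≤ ν * t} ⊆ ⋃ q ∈ F, Icc q.1 q.2) ∧
        ∑ q ∈ F, √ (ν * (q.2 - q.1)) ≤ C * (E / ν) ^ 2 * (K : ℝ) ^ (-(5 / 2) : ℝ)) ∧
    (∀ (ν T E : ℝ) (G : Set ℝ) (u : ℝ → V → V) (p : ℝ → V → ℝ), 0 < ν → LerayHopf ν T E G u p →
      (∀ (Γ : ℝ → ℝ) (δ : ℝ), 0 < δ → AntitoneOn Γ (Ioo 0 δ) → (∀ r ∈ Ioo 0 δ, 0 < Γ r) →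
        ¬ Summable (fun n : ℕ => Γ ((1 / 2) ^ n) ^ (-(2 / 5) : ℝ)) → HausG Γ (Ioo 0 T \ G) = 0) ∧
      HausG (fun r => (Real.log (1 / r) * Real.log (Real.log (1 / r))) ^ (5 / 2 : ℝ))
        (Ioo 0 T \ G) = 0) ∧
    (∃ c : ℝ, 0 < c ∧ ∀ (ν T E : ℝ) (G : Set ℝ) (u : ℝ → V → V) (p : ℝ → V → ℝ), 0 < ν →
      LerayHopf ν T E G u p → ∀ M : ℝ, 0 ≤ M →
        dimH (⋃ ρ > 0, Dense ν T M ρ G u)
          ≤ ENNReal.ofReal (1 / 2 - c * (1 + M) ^ (-(2 / 5) : ℝ)) ∧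
        ∀ ρ > 0, ∀ δ > 0, ∃ C : ℝ, ∀ r ∈ Ioo (0 : ℝ) 1, ∃ F : Finset ℝ,
          (Dense ν T M ρ G u ∩ Ici δ ⊆ ⋃ t ∈ F, Icc t (t + r)) ∧
          (F.card : ℝ) ≤ C * r ^ (-(1 / 2 - c * (1 + M) ^ (-(2 / 5) : ℝ)))) := by
  refine ⟨?_, ?_, ?_⟩
  · obtain ⟨C, hC, h⟩ := quant_cover
    exact ⟨C, hC, fun ν T E G u p hν hu K hK => h ν T E G u p hν hu.isLeray K hK⟩
  · intro ν T E G u p hν hu
    have hl := hu.isLeray
    refine ⟨fun Γ δ hδ hΓ hpos hdiv => ?_, ?_⟩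
    · rw [hausG_eq]
      exact hl.test hν hδ hΓ hpos hdiv
    · have e0 : (fun r : ℝ => (Real.log (1 / r) * Real.log (Real.log (1 / r))) ^ (5 / 2 : ℝ)) = Gll :=
        rfl
      rw [e0, hausG_eq]
      exact hl.test hν (Real.exp_pos _) Gll_anti Gll_pos Gll_div
  · have hCF := CF_pos
    refine ⟨1 / (576 * CF), by positivity, ?_⟩
    intro ν T E G u p hν hu M hM
    have e1 : (1 - qM M) / 2 = 1 / 2 - 1 / (576 * CF) * (1 + M) ^ (-(2 / 5) : ℝ) := by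
      unfold qM lamM
      field_simp
      ring
    refine ⟨?_, ?_⟩
    · rw [← e1]
      have h1 := hu.isLeray.dim hν hM
      have e2 : (⋃ ρ > 0, Dense ν T M ρ G u) = {t ∈ Ioo 0 T \ G | ∃ ρ > 0, ∀ r ∈ Ioo 0 ρ,
          ∫ τ in G ∩ Ioo (t - r) (t + r), enstrophy (u τ) ≤ M * (ν * √ ν) * √ r} := by
        ext t
        simp only [Dense, mem_iUnion, mem_ofPred_eq, exists_prop]
        constructor
        · rintro ⟨ρ, hρ, ht, h⟩
          exact ⟨ht, ρ, hρ, h⟩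
        · rintro ⟨ht, ρ, hρ, h⟩
          exact ⟨ρ, hρ, ht, h⟩
      rw [e2]
      exact h1
    · intro ρ hρ δ hδ
      rw [← e1]
      obtain ⟨C, _, hC⟩ := hu.isLeray.box hν hM hδ hρ (X := Dense ν T M ρ G u ∩ Ici δ)
        (fun t ht => ht.1.1) (fun t ht => ht.2) (fun t ht => ht.1.2)
      exact ⟨C, hC⟩

end Pool.Agent.Results.MP_6bf1e5_an.SingularTimes
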